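import Pool.Agent.H51.Mono.Core

namespace Pool.Agent.Results.MP_ae024f_co.OddSplitFour

open Pool.Agent.H51.Mono

/-- Every set of four integers, all congruent modulo `2 ^ v`, of which an odd number (one or three)
lie in some residue class modulo `2 ^ (v + 1)`, forms a monohedral tiling of `ℤ`. -/
theorem result (A : Finset ℤ) (hA : A.card = 4) (v : ℕ)
    (hv : ∀ a ∈ A, ∀ b ∈ A, (2 : ℤ) ^ v ∣ a - b) (r : ℤ)
    (hr : Odd (A.filter (fun a => (2 : ℤ) ^ (v + 1) ∣ a - r)).card) :
    FormsMonohedralTiling A :=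
  tiles_of_odd_split A hA v hv r hr

end Pool.Agent.Results.MP_ae024f_co.OddSplitFour
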